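import Pool.Agent.Q62.FN.QOne

/-!
# Q1: the Gauss map of a Frobenius nonclassical hypersurface need not be given by powers of `p`

The hypersurface is `(x^q - x w^(q-1))^2 + (y^q - y w^(q-1)) (z^q - z w^(q-1)) = 0` in `P^n`,
`n ≥ 3` (in affine coordinates `X^2 + Y Z = 0` with `X = x^q - x`, `Y = y^q - y`, `Z = z^q - z`).
-/

set_option autoImplicit false

open MvPolynomial Pool.Agent.Q62.FN

namespace Pool.Agent.Results.MP_291982_ag.GaussNotPowers

/-- For all `n ≥ 3`, all odd primes `p` (in particular all primes `p > n`) and all finite fields `κ`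
of characteristic `p` there is a hypersurface in `P^n` over `κ`, irreducible over the algebraic
closure, which is Frobenius nonclassical over `κ` but whose Gauss map does not admit powers of `p`
as coordinate functions. -/
theorem result (n p : ℕ) (hn : 3 ≤ n) (hp : p.Prime) (hp2 : p ≠ 2) (κ : Type) [Field κ]
    [Fintype κ] [CharP κ p] :
    ∃ F : MvPolynomial (Fin (n + 1)) κ, (∃ d, 0 < d ∧ F.IsHomogeneous d) ∧
      Irreducible (geom F) ∧ FrobeniusNonclassical F ∧ ¬ GaussHasPowers p F :=
  main_one n p hn hp hp2 κ

end Pool.Agent.Results.MP_291982_ag.GaussNotPowers
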