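import Pool.Agent.Q62.FN.Curve

/-!
# Q2: the Gauss map of a Frobenius nonclassical hypersurface can be separable on a curve

The hypersurface is `(x^q - x w^(q-1))^2 + (y^q - y w^(q-1)) (z^q - z w^(q-1)) = 0` in `P^n`,
`n ≥ 3`; the curve is `w = 1`, `y = x^2`, `(x^(q-1) + 1) (z^q - z) + (x^(q-1) - 1) = 0` (and all other
coordinates zero).
-/

set_option autoImplicit false

open MvPolynomial Pool.Agent.Q62.FN

namespace Pool.Agent.Results.MP_291982_ag.SeparableOnCurve

/-- For all `n ≥ 3`, all odd primes `p` (in particular all primes `p > n`) and all finite fields `κ`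
of characteristic `p` there is a hypersurface in `P^n` over `κ`, irreducible over the algebraic
closure, which is Frobenius nonclassical over `κ` and contains an irreducible curve, defined over
`κ`, on which the Gauss map of the hypersurface is separable. -/
theorem result (n p : ℕ) (hn : 3 ≤ n) (hp : p.Prime) (hp2 : p ≠ 2) (κ : Type) [Field κ]
    [Fintype κ] [CharP κ p] :
    ∃ F : MvPolynomial (Fin (n + 1)) κ, (∃ d, 0 < d ∧ F.IsHomogeneous d) ∧
      Irreducible (geom F) ∧ FrobeniusNonclassical F ∧
      ∃ P : Ideal (MvPolynomial (Fin (n + 1)) (AlgebraicClosure κ)),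
        (∃ j, IsCurve P j) ∧ geom F ∈ P ∧ SeparableOn p F P :=
  main_two n p hn hp hp2 κ

end Pool.Agent.Results.MP_291982_ag.SeparableOnCurve
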